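import Mathlib

/-! Project Y202-U, task L4: finite sums, energy inequalities (abstract part). -/

set_option autoImplicit false

namespace Pool.Agent.Y220.U

open Finset

/-- derivative of the smoothed biases -/
theorem dG_id {V : Type} [Fintype V] [DecidableEq V] (dg : V → ℝ) (m W : V → V → ℝ) (b : V → ℝ)
    (v : V) (hs : ∀ v w, dg v * m v w = dg w * m w v) (hW : ∀ v w, W v w = W w v)
    (hW0 : ∀ v, W v v = 0) :
    ∑ w, (dg w * ((if v = w then 0 else -2 * W v w + ∑ v', m v v' * W v' w +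
        ∑ w', m w w' * W v w') * b w + W v w * (b w - ∑ w', m w w' * b w'))) =
      -(∑ w, dg w * W v w * b w) + ∑ v', m v v' * (∑ w, dg w * W v' w * b w) -
        2 * dg v * (∑ w, m v w * W v w) * b v := by
  have h1 : ∀ w, (if v = w then (0:ℝ) else -2 * W v w + ∑ v', m v v' * W v' w +
      ∑ w', m w w' * W v w') = (-2 * W v w + ∑ v', m v v' * W v' w + ∑ w', m w w' * W v w') -
        (if w = v then 2 * ∑ w, m v w * W v w else 0) := by
    intro w
    by_cases h : v = w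
    · subst h
      have h2 : ∑ v', m v v' * W v' v = ∑ v', m v v' * W v v' :=
        sum_congr rfl (fun v' _ => by rw [hW v' v])
      rw [if_pos rfl, if_pos rfl, hW0, h2]
      ring
    · rw [if_neg h, if_neg (Ne.symm h), sub_zero]
  have e2 : ∑ w, dg w * (∑ v', m v v' * W v' w) * b w =
      ∑ v', m v v' * ∑ w, dg w * W v' w * b w := by
    simp only [mul_sum, sum_mul]
    rw [sum_comm]
    refine sum_congr rfl fun x _ => sum_congr rfl fun y _ => ?_
    ring
  have e3 : ∑ w, dg w * (∑ w', m w w' * W v w') * b w =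
      ∑ w, dg w * W v w * (∑ w', m w w' * b w') := by
    simp only [mul_sum, sum_mul]
    rw [sum_comm]
    refine sum_congr rfl fun x _ => sum_congr rfl fun y _ => ?_
    calc dg y * (m y x * W v x) * b y = (dg y * m y x) * W v x * b y := by ring
      _ = (dg x * m x y) * W v x * b y := by rw [hs y x]
      _ = dg x * W v x * (m x y * b y) := by ring
  have e4 : ∑ w, dg w * (if w = v then 2 * ∑ w, m v w * W v w else 0) * b w =
      2 * dg v * (∑ w, m v w * W v w) * b v := by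
    rw [Finset.sum_eq_single v]
    · rw [if_pos rfl]
      ring
    · intro w _ hw
      rw [if_neg hw]
      ring
    · intro h
      exact absurd (mem_univ v) h
  have e5 : ∀ w, dg w * ((if v = w then 0 else -2 * W v w + ∑ v', m v v' * W v' w +
        ∑ w', m w w' * W v w') * b w + W v w * (b w - ∑ w', m w w' * b w')) =
      ((-(dg w * W v w * b w) + dg w * (∑ v', m v v' * W v' w) * b w) +
        dg w * (∑ w', m w w' * W v w') * b w) -
        dg w * (if w = v then 2 * ∑ w, m v w * W v w else 0) * b w -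
        dg w * W v w * (∑ w', m w w' * b w') := by
    intro w
    rw [h1 w]
    ring
  rw [sum_congr rfl (fun w _ => e5 w), sum_sub_distrib, sum_sub_distrib, sum_add_distrib,
    sum_add_distrib, sum_neg_distrib, e2, e3, e4]
  ring

/-- the energy inequality at a fixed time -/
theorem en_ineq {V C : Type} [Fintype V] [Fintype C] (dg : V → ℝ) (m : V → V → ℝ) (r : V → ℝ)
    (G b : C → V → ℝ) (θ D : ℝ) (hθ : 0 < θ) (hdg : ∀ v, 0 ≤ dg v) (hm : ∀ v w, 0 ≤ m v w)
    (hs : ∀ v w, dg v * m v w = dg w * m w v) (hrow : ∀ v, ∑ w, m v w ≤ 1 - θ)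
    (hr0 : ∀ v, 0 ≤ r v) (hr : ∀ v, r v ≤ D) :
    ∑ c, ∑ v, dg v * (2 * G c v * (-(G c v) + ∑ v', m v v' * G c v' - r v * b c v)) ≤
      -θ * (∑ c, ∑ v, dg v * G c v ^ 2) + D / θ * ∑ v, dg v * r v * ∑ c, b c v ^ 2 := by
  have h1 : ∀ c, ∑ v, dg v * (2 * G c v * ∑ v', m v v' * G c v') ≤
      2 * (1 - θ) * ∑ v, dg v * G c v ^ 2 := by
    intro c
    have e1 : ∑ v, dg v * (2 * G c v * ∑ v', m v v' * G c v') ≤
        ∑ v, ∑ v', (dg v * m v v' * G c v ^ 2 + dg v * m v v' * G c v' ^ 2) := by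
      refine sum_le_sum fun v _ => ?_
      rw [mul_sum, mul_sum]
      refine sum_le_sum fun v' _ => ?_
      have h2 : 0 ≤ dg v * m v v' := mul_nonneg (hdg v) (hm v v')
      nlinarith [mul_nonneg h2 (sq_nonneg (G c v - G c v'))]
    have e2 : ∑ v, ∑ v', (dg v * m v v' * G c v ^ 2 + dg v * m v v' * G c v' ^ 2) =
        2 * ∑ v, dg v * G c v ^ 2 * ∑ v', m v v' := by
      have e3 : ∑ v, ∑ v', dg v * m v v' * G c v' ^ 2 = ∑ v, dg v * G c v ^ 2 * ∑ v', m v v' := by
        rw [sum_comm]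
        refine sum_congr rfl fun v _ => ?_
        rw [mul_sum]
        refine sum_congr rfl fun v' _ => ?_
        rw [hs v' v]
        ring
      have e4 : ∑ v, ∑ v', dg v * m v v' * G c v ^ 2 = ∑ v, dg v * G c v ^ 2 * ∑ v', m v v' := by
        refine sum_congr rfl fun v _ => ?_
        rw [mul_sum]
        refine sum_congr rfl fun v' _ => ?_
        ring
      simp only [sum_add_distrib]
      rw [e3, e4]
      ring
    have e5 : ∑ v, dg v * G c v ^ 2 * ∑ v', m v v' ≤ (1 - θ) * ∑ v, dg v * G c v ^ 2 := by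
      rw [mul_sum]
      refine sum_le_sum fun v _ => ?_
      have h2 : 0 ≤ dg v * G c v ^ 2 := mul_nonneg (hdg v) (sq_nonneg _)
      nlinarith [mul_le_mul_of_nonneg_left (hrow v) h2]
    linarith
  have h2 : ∀ c, ∑ v, dg v * (2 * G c v * (-(G c v) - r v * b c v)) ≤
      ∑ v, (-(2 - θ) * (dg v * G c v ^ 2) + D / θ * (dg v * r v * b c v ^ 2)) := by
    intro c
    refine sum_le_sum fun v _ => ?_
    have h3 : -(2 * G c v * (r v * b c v)) ≤ θ * G c v ^ 2 + D / θ * (r v * b c v ^ 2) := by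
      have h4 : 0 ≤ (θ * G c v + r v * b c v) ^ 2 / θ := div_nonneg (sq_nonneg _) hθ.le
      have h5 : (θ * G c v + r v * b c v) ^ 2 / θ =
          θ * G c v ^ 2 + 2 * G c v * (r v * b c v) + r v ^ 2 * b c v ^ 2 / θ := by
        field_simp
        ring
      have h6 : r v ^ 2 * b c v ^ 2 / θ ≤ D / θ * (r v * b c v ^ 2) := by
        have e : D / θ * (r v * b c v ^ 2) = D * (r v * b c v ^ 2) / θ := by ring
        rw [e]
        apply div_le_div_of_nonneg_right _ hθ.le
        have h7 : 0 ≤ r v * b c v ^ 2 := mul_nonneg (hr0 v) (sq_nonneg _)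
        nlinarith [mul_le_mul_of_nonneg_right (hr v) h7]
      linarith
    have h8 := mul_le_mul_of_nonneg_left h3 (hdg v)
    calc dg v * (2 * G c v * (-(G c v) - r v * b c v)) =
          -2 * (dg v * G c v ^ 2) + dg v * (-(2 * G c v * (r v * b c v))) := by ring
      _ ≤ -2 * (dg v * G c v ^ 2) + dg v * (θ * G c v ^ 2 + D / θ * (r v * b c v ^ 2)) := by
          linarith
      _ = -(2 - θ) * (dg v * G c v ^ 2) + D / θ * (dg v * r v * b c v ^ 2) := by ring
  have h3 : ∀ c, ∑ v, dg v * (2 * G c v * (-(G c v) + ∑ v', m v v' * G c v' - r v * b c v)) ≤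
      -θ * (∑ v, dg v * G c v ^ 2) + D / θ * ∑ v, dg v * r v * b c v ^ 2 := by
    intro c
    have e1 : ∑ v, dg v * (2 * G c v * (-(G c v) + ∑ v', m v v' * G c v' - r v * b c v)) =
        ∑ v, dg v * (2 * G c v * ∑ v', m v v' * G c v') +
          ∑ v, dg v * (2 * G c v * (-(G c v) - r v * b c v)) := by
      rw [← sum_add_distrib]
      refine sum_congr rfl fun v _ => ?_
      ring
    have e2 := h2 c
    rw [sum_add_distrib, ← mul_sum, ← mul_sum] at e2
    rw [e1]
    have := h1 c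
    linarith
  calc ∑ c, ∑ v, dg v * (2 * G c v * (-(G c v) + ∑ v', m v v' * G c v' - r v * b c v)) ≤
        ∑ c, (-θ * (∑ v, dg v * G c v ^ 2) + D / θ * ∑ v, dg v * r v * b c v ^ 2) :=
        sum_le_sum fun c _ => h3 c
    _ = -θ * (∑ c, ∑ v, dg v * G c v ^ 2) + D / θ * ∑ v, dg v * r v * ∑ c, b c v ^ 2 := by
        rw [sum_add_distrib, ← mul_sum, ← mul_sum]
        congr 2
        rw [sum_comm]
        refine sum_congr rfl fun v _ => ?_
        rw [mul_sum]

/-- Schur test -/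
theorem schur {V : Type} [Fintype V] (a : V → ℝ) (K : V → V → ℝ) (κ : ℝ)
    (hK0 : ∀ v w, 0 ≤ K v w) (hKs : ∀ v w, K v w = K w v) (hrow : ∀ v, ∑ w, K v w ≤ κ) :
    ∑ v, ∑ w, a v * a w * K v w ≤ κ * ∑ v, a v ^ 2 := by
  have e1 : ∑ v, ∑ w, a v * a w * K v w ≤ ∑ v, ∑ w, (a v ^ 2 / 2 * K v w + a w ^ 2 / 2 * K v w) := by
    refine sum_le_sum fun v _ => sum_le_sum fun w _ => ?_
    nlinarith [mul_nonneg (hK0 v w) (sq_nonneg (a v - a w))]
  have e2 : ∑ v, ∑ w, a v ^ 2 / 2 * K v w ≤ κ / 2 * ∑ v, a v ^ 2 := by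
    rw [mul_sum]
    refine sum_le_sum fun v _ => ?_
    rw [← mul_sum]
    nlinarith [mul_le_mul_of_nonneg_left (hrow v) (sq_nonneg (a v))]
  have e3 : ∑ v, ∑ w, a w ^ 2 / 2 * K v w = ∑ v, ∑ w, a v ^ 2 / 2 * K v w := by
    rw [sum_comm]
    refine sum_congr rfl fun v _ => sum_congr rfl fun w _ => ?_
    rw [hKs w v]
  simp only [sum_add_distrib] at e1
  rw [e3] at e1
  linarith

/-- the energy at time zero -/
theorem en_zero {V C : Type} [Fintype V] [Fintype C] (dg : V → ℝ) (W : V → V → ℝ)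
    (b : C → V → ℝ) (D R : ℝ) (hdg : ∀ v, 0 ≤ dg v) (hD : ∀ v, dg v ≤ D) (hR : 0 ≤ R)
    (hW0 : ∀ v w, 0 ≤ W v w) (hWs : ∀ v w, W v w = W w v)
    (hrow : ∀ v, ∑ w, dg w * W v w ≤ R) :
    ∑ c, ∑ v, dg v * (∑ w, dg w * W v w * b c w) ^ 2 ≤ R ^ 2 * D * ∑ c, ∑ v, b c v ^ 2 := by
  rw [mul_sum]
  refine sum_le_sum fun c _ => ?_
  have h1 : ∀ v, (∑ w, dg w * W v w * b c w) ^ 2 ≤ R * ∑ w, dg w * W v w * b c w ^ 2 := by
    intro v
    have h2 := Finset.sum_sq_le_sum_mul_sum_of_sq_le_mul (s := (univ : Finset V))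
      (r := fun w => dg w * W v w * b c w) (f := fun w => dg w * W v w)
      (g := fun w => dg w * W v w * b c w ^ 2)
      (fun w _ => mul_nonneg (hdg w) (hW0 v w))
      (fun w _ => mul_nonneg (mul_nonneg (hdg w) (hW0 v w)) (sq_nonneg _))
      (fun w _ => le_of_eq (by ring))
    refine h2.trans (mul_le_mul_of_nonneg_right (hrow v) ?_)
    exact sum_nonneg fun w _ => mul_nonneg (mul_nonneg (hdg w) (hW0 v w)) (sq_nonneg _)
  have h3 : ∑ v, dg v * (∑ w, dg w * W v w * b c w) ^ 2 ≤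
      ∑ v, dg v * (R * ∑ w, dg w * W v w * b c w ^ 2) :=
    sum_le_sum fun v _ => mul_le_mul_of_nonneg_left (h1 v) (hdg v)
  have h4 : ∑ v, dg v * (R * ∑ w, dg w * W v w * b c w ^ 2) =
      ∑ w, R * (dg w * b c w ^ 2) * ∑ v, dg v * W w v := by
    simp only [mul_sum]
    rw [sum_comm]
    refine sum_congr rfl fun x _ => sum_congr rfl fun y _ => ?_
    rw [hWs y x]
    ring
  have h5 : ∑ w, R * (dg w * b c w ^ 2) * ∑ v, dg v * W w v ≤ ∑ w, R ^ 2 * D * b c w ^ 2 := by
    refine sum_le_sum fun w _ => ?_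
    have h6 : 0 ≤ R * (dg w * b c w ^ 2) := mul_nonneg hR (mul_nonneg (hdg w) (sq_nonneg _))
    have h7 := mul_le_mul_of_nonneg_left (hrow w) h6
    have h8 : R * (dg w * b c w ^ 2) * R ≤ R ^ 2 * D * b c w ^ 2 := by
      have h9 : dg w * b c w ^ 2 ≤ D * b c w ^ 2 := mul_le_mul_of_nonneg_right (hD w) (sq_nonneg _)
      nlinarith [mul_le_mul_of_nonneg_left h9 (sq_nonneg R)]
    linarith
  rw [← mul_sum] at h5
  linarith

/-- monotone comparison -/
theorem int_comp {K P K' P' : ℝ → ℝ} {t A : ℝ} (ht : 0 ≤ t)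
    (hK : ∀ u, HasDerivAt K (-(K' u)) u) (hP : ∀ u, HasDerivAt P (P' u) u)
    (h : ∀ u, 0 ≤ u → u ≤ t → K' u ≤ A * P' u) : K 0 - K t ≤ A * (P t - P 0) := by
  have hd : ∀ u, HasDerivAt (fun u => K u + A * P u) (-(K' u) + A * P' u) u :=
    fun u => (hK u).add ((hP u).const_mul A)
  have hm : MonotoneOn (fun u => K u + A * P u) (Set.Icc 0 t) := by
    apply monotoneOn_of_deriv_nonneg (convex_Icc 0 t)
    · exact fun u _ => (hd u).continuousAt.continuousWithinAt
    · exact fun u _ => (hd u).differentiableAt.differentiableWithinAt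
    · intro u hu
      rw [interior_Icc] at hu
      rw [(hd u).deriv]
      have := h u hu.1.le hu.2.le
      linarith
  have := hm ⟨le_refl _, ht⟩ ⟨ht, le_refl _⟩ ht
  simp only at this
  linarith

end Pool.Agent.Y220.U
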