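import Pool.Agent.Y202.U.Stm
import Pool.Agent.Y220.U.A

/-! Project Y202-U, task L4: variance of the quadratic statistic from a deterministic state. -/

set_option autoImplicit false

namespace Pool.Agent.Y220.U

open Finset Pool.Agent.W788.NV Pool.Agent.Y202.U

section conc

variable {V : Type} [Fintype V] [DecidableEq V] {G : SimpleGraph V} {q : ℕ} {θ : ℝ} {Δ : ℕ}

/-! ### the rates -/

theorem m_nonneg (hA : SA G q θ Δ) (v w : V) : 0 ≤ mrate G q θ (Sum.inr (v, w)) :=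
  (p_tot V G q θ (le_trans (by norm_num) hA.q2) hA.t0.le hA.t1 hA.d1).1 _

theorem dg_cast (hA : SA G q θ Δ) (v : V) : (1 : ℝ) ≤ dg G v := by
  exact_mod_cast hA.d1 v

theorem dg_castD (hA : SA G q θ Δ) (v : V) : (dg G v : ℝ) ≤ Δ := by
  exact_mod_cast hA.dD v

theorem m_symm (hA : SA G q θ Δ) (v w : V) :
    (dg G v : ℝ) * mrate G q θ (Sum.inr (v, w)) = dg G w * mrate G q θ (Sum.inr (w, v)) := by
  classical
  have hv := dg_cast hA v
  have hw := dg_cast hA w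
  by_cases h : G.Adj v w
  · have h1 : mrate G q θ (Sum.inr (v, w)) = (1 - θ) / (dg G v : ℝ) := by
      unfold mrate
      simp only
      rw [if_pos h]
    have h2 : mrate G q θ (Sum.inr (w, v)) = (1 - θ) / (dg G w : ℝ) := by
      unfold mrate
      simp only
      rw [if_pos h.symm]
    rw [h1, h2]
    field_simp
  · have h1 : mrate G q θ (Sum.inr (v, w)) = 0 := by
      unfold mrate
      simp only
      rw [if_neg h]
    have h2 : mrate G q θ (Sum.inr (w, v)) = 0 := by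
      unfold mrate
      simp only
      rw [if_neg (fun h' => h h'.symm)]
    rw [h1, h2]
    ring

theorem m_row (hA : SA G q θ Δ) (v : V) : ∑ w, mrate G q θ (Sum.inr (v, w)) = 1 - θ := by
  classical
  have hv := dg_cast hA v
  have h1 : ∀ w, mrate G q θ (Sum.inr (v, w)) =
      if G.Adj v w then (1 - θ) / (dg G v : ℝ) else 0 := by
    intro w
    unfold mrate
    simp only
  rw [sum_congr rfl (fun w _ => h1 w), ← sum_filter, sum_const, nsmul_eq_mul]
  have h2 : ((univ.filter (fun w => G.Adj v w)).card : ℝ) = dg G v := by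
    unfold dg
    norm_cast
  rw [h2]
  field_simp

theorem m_le (hA : SA G q θ Δ) (v w : V) : (dg G v : ℝ) * mrate G q θ (Sum.inr (v, w)) ≤ 1 := by
  classical
  have hv := dg_cast hA v
  by_cases h : G.Adj v w
  · have h1 : mrate G q θ (Sum.inr (v, w)) = (1 - θ) / (dg G v : ℝ) := by
      unfold mrate
      simp only
      rw [if_pos h]
    rw [h1, mul_div_cancel₀ _ (by positivity)]
    have := hA.t0
    linarith
  · have h1 : mrate G q θ (Sum.inr (v, w)) = 0 := by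
      unfold mrate
      simp only
      rw [if_neg h]
    rw [h1, mul_zero]
    norm_num

/-! ### the square field of the quadratic statistic -/

theorem wp_nonneg (h2 : S_W2) (hA : SA G q θ Δ) {t : ℝ} (ht : 0 ≤ t) (a b : V) :
    0 ≤ Wp G q θ t a b := ((h2 V G q θ Δ hA).1 t _ ht)

theorem zz_diff (h2 : S_W2) (hA : SA G q θ Δ) (s : ℝ) (x : V → Fin q) (v : V) (d : Fin q) :
    ZZ G q θ s (Function.update x v d) - ZZ G q θ s x =
      2 * (dg G v : ℝ) * ((∑ w, (dg G w : ℝ) * Wp G q θ s v w * et d w x) -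
        ∑ w, (dg G w : ℝ) * Wp G q θ s v w * et (x v) w x) := by
  have hsy := (h2 V G q θ Δ hA).2.1 s
  have h0 := (h2 V G q θ Δ hA).2.2.1 s
  have key : ∀ a b, (dg G a : ℝ) * dg G b * Wp G q θ s a b * hh a b (Function.update x v d) -
      (dg G a : ℝ) * dg G b * Wp G q θ s a b * hh a b x =
      (if a = v then (dg G v : ℝ) * dg G b * Wp G q θ s v b * (et d b x - et (x v) b x) else 0) +
      (if b = v then (dg G v : ℝ) * dg G a * Wp G q θ s v a * (et d a x - et (x v) a x) else 0) := by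
    intro a b
    by_cases ha : a = v
    · by_cases hb : b = v
      · subst ha
        subst hb
        rw [h0]
        simp
      · subst ha
        rw [if_pos rfl, if_neg hb, add_zero]
        unfold hh et
        rw [Function.update_self, Function.update_of_ne hb]
        have e1 : (if d = x b then (1:ℝ) else 0) = if x b = d then 1 else 0 := by
          simp only [eq_comm]
        have e2 : (if x a = x b then (1:ℝ) else 0) = if x b = x a then 1 else 0 := by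
          simp only [eq_comm]
        rw [e1, e2]
        ring
    · by_cases hb : b = v
      · subst hb
        rw [if_neg ha, if_pos rfl, zero_add, hsy a b]
        unfold hh et
        rw [Function.update_self, Function.update_of_ne ha]
        ring
      · rw [if_neg ha, if_neg hb]
        unfold hh
        rw [Function.update_of_ne ha, Function.update_of_ne hb]
        ring
  unfold ZZ
  rw [← sum_sub_distrib]
  have e1 : ∀ a, (∑ b, (dg G a : ℝ) * dg G b * Wp G q θ s a b * hh a b (Function.update x v d)) -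
      ∑ b, (dg G a : ℝ) * dg G b * Wp G q θ s a b * hh a b x =
      (if a = v then ∑ b, (dg G v : ℝ) * dg G b * Wp G q θ s v b * (et d b x - et (x v) b x)
        else 0) +
      (dg G v : ℝ) * dg G a * Wp G q θ s v a * (et d a x - et (x v) a x) := by
    intro a
    rw [← sum_sub_distrib, sum_congr rfl (fun b _ => key a b), sum_add_distrib]
    congr 1
    · by_cases ha : a = v
      · simp only [if_pos ha]
      · simp only [if_neg ha, sum_const_zero]
    · rw [sum_ite_eq' univ v]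
      simp
  rw [sum_congr rfl (fun a _ => e1 a), sum_add_distrib, sum_ite_eq' univ v, if_pos (mem_univ v)]
  have e2 : ∑ b, (dg G v : ℝ) * dg G b * Wp G q θ s v b * (et d b x - et (x v) b x) =
      (dg G v : ℝ) * ((∑ w, (dg G w : ℝ) * Wp G q θ s v w * et d w x) -
        ∑ w, (dg G w : ℝ) * Wp G q θ s v w * et (x v) w x) := by
    rw [← sum_sub_distrib, mul_sum]
    refine sum_congr rfl fun w _ => ?_
    ring
  rw [e2]
  ring

theorem et_hh (hq : 2 ≤ q) (w w' : V) (x : V → Fin q) :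
    ∑ c, et c w x * et c w' x = hh w w' x := by
  have hq0 : (q : ℝ) ≠ 0 := by
    have : 0 < q := by omega
    positivity
  unfold et hh
  have e : ∀ c : Fin q, ((if x w = c then (1:ℝ) else 0) - 1 / (q : ℝ)) *
      ((if x w' = c then (1:ℝ) else 0) - 1 / (q : ℝ)) =
      (if x w = c then (if x w' = c then (1:ℝ) else 0) else 0) -
        1 / (q : ℝ) * (if x w = c then (1:ℝ) else 0) -
        1 / (q : ℝ) * (if x w' = c then (1:ℝ) else 0) + 1 / (q : ℝ) * (1 / (q : ℝ)) := by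
    intro c
    split_ifs <;> ring
  rw [sum_congr rfl (fun c _ => e c), sum_add_distrib, sum_sub_distrib, sum_sub_distrib,
    ← mul_sum, ← mul_sum, sum_ite_eq univ (x w), sum_ite_eq univ (x w), sum_ite_eq univ (x w'),
    if_pos (mem_univ _), if_pos (mem_univ _), if_pos (mem_univ _), sum_const, card_univ,
    Fintype.card_fin, nsmul_eq_mul]
  have e2 : (if x w' = x w then (1:ℝ) else 0) = if x w = x w' then 1 else 0 := by
    simp only [eq_comm]
  rw [e2]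
  field_simp
  ring

theorem sq_hh (hq : 2 ≤ q) (a : V → ℝ) (x : V → Fin q) :
    ∑ c, (∑ w, a w * et c w x) ^ 2 = ∑ w, ∑ w', a w * a w' * hh w w' x := by
  have e1 : ∀ c : Fin q, (∑ w, a w * et c w x) ^ 2 =
      ∑ w, ∑ w', a w * a w' * (et c w x * et c w' x) := by
    intro c
    rw [sq, sum_mul_sum]
    refine sum_congr rfl fun w _ => sum_congr rfl fun w' _ => ?_
    ring
  rw [sum_congr rfl (fun c _ => e1 c), sum_comm]
  refine sum_congr rfl fun w _ => ?_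
  rw [sum_comm]
  refine sum_congr rfl fun w' _ => ?_
  rw [← mul_sum, et_hh hq]

theorem act_site (e : (V × Fin q) ⊕ (V × V)) (y : V → Fin q) :
    ∃ c, act e y = Function.update y (site e) c := by
  rcases e with p | p
  · exact ⟨p.2, rfl⟩
  · exact ⟨y p.2, rfl⟩

/-- pointwise bound of the square field -/
theorem gam_le (h2 : S_W2) (hA : SA G q θ Δ) (s : ℝ) (x : V → Fin q) :
    gam (mrate G q θ) (act (V := V) (q := q)) (ZZ G q θ s) x ≤
      ∑ v, 16 * (Δ : ℝ) ^ 2 * ∑ w, ∑ w', ((dg G w : ℝ) * Wp G q θ s v w) *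
        ((dg G w' : ℝ) * Wp G q θ s v w') * hh w w' x := by
  have hT := p_tot V G q θ (le_trans (by norm_num) hA.q2) hA.t0.le hA.t1 hA.d1
  rw [← hT.2 (fun v => 16 * (Δ : ℝ) ^ 2 * ∑ w, ∑ w', ((dg G w : ℝ) * Wp G q θ s v w) *
        ((dg G w' : ℝ) * Wp G q θ s v w') * hh w w' x)]
  unfold gam
  refine sum_le_sum fun e _ => mul_le_mul_of_nonneg_left ?_ (hT.1 e)
  obtain ⟨d, hd⟩ := act_site e x
  rw [hd, zz_diff h2 hA, ← sq_hh hA.q2]
  generalize hA' : (fun c : Fin q => ∑ w, (dg G w : ℝ) * Wp G q θ s (site e) w * et c w x) = A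
  have e1 : ∀ c : Fin q, ∑ w, (dg G w : ℝ) * Wp G q θ s (site e) w * et c w x = A c :=
    fun c => congrFun hA' c
  rw [e1, e1, sum_congr rfl (fun c _ => by rw [e1 c])]
  have h3 : ∀ c, A c ^ 2 ≤ ∑ c, A c ^ 2 := fun c =>
    single_le_sum (f := fun c => A c ^ 2) (fun c _ => sq_nonneg (A c)) (mem_univ c)
  have h4 := h3 d
  have h5 := h3 (x (site e))
  have hd0 := dg_cast hA (site e)
  have hdD := dg_castD hA (site e)
  have h6 : (dg G (site e) : ℝ) ^ 2 ≤ (Δ : ℝ) ^ 2 := by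
    apply pow_le_pow_left₀ (by linarith) hdD
  have h7 : (A d - A (x (site e))) ^ 2 ≤ 4 * ∑ c, A c ^ 2 := by
    nlinarith [sq_nonneg (A d + A (x (site e)))]
  calc (2 * (dg G (site e) : ℝ) * (A d - A (x (site e)))) ^ 2 =
        4 * ((dg G (site e) : ℝ) ^ 2 * (A d - A (x (site e))) ^ 2) := by ring
    _ ≤ 4 * ((Δ : ℝ) ^ 2 * (4 * ∑ c, A c ^ 2)) := by
        apply mul_le_mul_of_nonneg_left _ (by norm_num)
        exact mul_le_mul h6 h7 (sq_nonneg _) (by positivity)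
    _ = 16 * (Δ : ℝ) ^ 2 * ∑ c, A c ^ 2 := by ring

/-! ### expectation of the square field -/

/-- the smoothed biases -/
noncomputable def Gs (G : SimpleGraph V) (q : ℕ) (θ : ℝ) (x0 : V → Fin q) (s r : ℝ) (c : Fin q)
    (v : V) : ℝ := ∑ w, (dg G w : ℝ) * Wp G q θ s v w * bi G q θ x0 r c w

/-- the square norm of the pair kernel with degrees -/
noncomputable def QQ (G : SimpleGraph V) (q : ℕ) (θ : ℝ) (s : ℝ) : ℝ :=
  ∑ a, ∑ b, (dg G a : ℝ) * dg G b * (Wp G q θ s a b) ^ 2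

theorem pt_gam_le (h2 : S_W2) (hL2 : S_L2) (hA : SA G q θ Δ) (s r : ℝ) (hs : 0 ≤ s) (hr : 0 ≤ r)
    (x0 : V → Fin q) :
    pt G q θ r (gam (mrate G q θ) (act (V := V) (q := q)) (ZZ G q θ s)) x0 ≤
      16 * (Δ : ℝ) ^ 2 * ((Δ : ℝ) ^ 3 / θ * QQ G q θ s +
        ∑ c, ∑ v, (dg G v : ℝ) * (Gs G q θ x0 s r c v) ^ 2) := by
  have hq1 : 1 ≤ q := le_trans (by norm_num) hA.q2
  have hT := p_tot V G q θ hq1 hA.t0.le hA.t1 hA.d1
  obtain ⟨μ, hμ, -⟩ := p_sta V G q θ hq1 hA.t0 hA.t1 hA.d1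
  obtain ⟨hK0, hKr, hK⟩ := hL2 V G q θ Δ hA μ hμ
  have hsy := (h2 V G q θ Δ hA).2.1 s
  have hW0 : ∀ a b, 0 ≤ Wp G q θ s a b := fun a b => wp_nonneg h2 hA hs a b
  have hd0 : ∀ v, (0:ℝ) ≤ dg G v := fun v => Nat.cast_nonneg _
  -- monotonicity and linearity
  have e1 : pt G q θ r (gam (mrate G q θ) (act (V := V) (q := q)) (ZZ G q θ s)) x0 ≤
      pt G q θ r (fun x => ∑ k : V × V × V, (16 * (Δ : ℝ) ^ 2 *
        (((dg G k.2.1 : ℝ) * Wp G q θ s k.1 k.2.1) * ((dg G k.2.2 : ℝ) * Wp G q θ s k.1 k.2.2))) *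
          hh k.2.1 k.2.2 x) x0 := by
    refine p_mk.mono _ _ _ _ _ _ _ _ hT.1 hr (fun x => ?_)
    refine (gam_le h2 hA s x).trans (le_of_eq ?_)
    rw [Fintype.sum_prod_type]
    refine sum_congr rfl fun v _ => ?_
    rw [Fintype.sum_prod_type, mul_sum]
    refine sum_congr rfl fun w _ => ?_
    rw [mul_sum]
    refine sum_congr rfl fun w' _ => ?_
    ring
  have e2 : pt G q θ r (fun x => ∑ k : V × V × V, (16 * (Δ : ℝ) ^ 2 *
        (((dg G k.2.1 : ℝ) * Wp G q θ s k.1 k.2.1) * ((dg G k.2.2 : ℝ) * Wp G q θ s k.1 k.2.2))) *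
          hh k.2.1 k.2.2 x) x0 =
      ∑ k : V × V × V, (16 * (Δ : ℝ) ^ 2 *
        (((dg G k.2.1 : ℝ) * Wp G q θ s k.1 k.2.1) * ((dg G k.2.2 : ℝ) * Wp G q θ s k.1 k.2.2))) *
          pt G q θ r (hh k.2.1 k.2.2) x0 :=
    p_mk.lin _ _ _ _ _ _ _ _ _
  have e3 : ∑ k : V × V × V, (16 * (Δ : ℝ) ^ 2 *
        (((dg G k.2.1 : ℝ) * Wp G q θ s k.1 k.2.1) * ((dg G k.2.2 : ℝ) * Wp G q θ s k.1 k.2.2))) *
          pt G q θ r (hh k.2.1 k.2.2) x0 ≤
      ∑ k : V × V × V, (16 * (Δ : ℝ) ^ 2 *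
        (((dg G k.2.1 : ℝ) * Wp G q θ s k.1 k.2.1) * ((dg G k.2.2 : ℝ) * Wp G q θ s k.1 k.2.2))) *
          (mean μ (hh (q := q) k.2.1 k.2.2) +
            ∑ c, bi G q θ x0 r c k.2.1 * bi G q θ x0 r c k.2.2) := by
    refine sum_le_sum fun k _ => mul_le_mul_of_nonneg_left (hK x0 r hr _ _) ?_
    have := hW0 k.1 k.2.1
    have := hW0 k.1 k.2.2
    have := hd0 k.2.1
    have := hd0 k.2.2
    positivity
  refine e1.trans (e2.le.trans (e3.trans ?_))
  -- the two parts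
  have e4 : ∑ k : V × V × V, (16 * (Δ : ℝ) ^ 2 *
        (((dg G k.2.1 : ℝ) * Wp G q θ s k.1 k.2.1) * ((dg G k.2.2 : ℝ) * Wp G q θ s k.1 k.2.2))) *
          (mean μ (hh (q := q) k.2.1 k.2.2) +
            ∑ c, bi G q θ x0 r c k.2.1 * bi G q θ x0 r c k.2.2) =
      16 * (Δ : ℝ) ^ 2 * (∑ v, ∑ w, ∑ w', ((dg G w : ℝ) * Wp G q θ s v w) *
          ((dg G w' : ℝ) * Wp G q θ s v w') * mean μ (hh (q := q) w w') +
        ∑ v, ∑ c, (Gs G q θ x0 s r c v) ^ 2) := by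
    have e5 : ∀ v, ∑ c, (Gs G q θ x0 s r c v) ^ 2 =
        ∑ w, ∑ w', ((dg G w : ℝ) * Wp G q θ s v w) *
          ((dg G w' : ℝ) * Wp G q θ s v w') * ∑ c, bi G q θ x0 r c w * bi G q θ x0 r c w' := by
      intro v
      have e6 : ∀ c : Fin q, (Gs G q θ x0 s r c v) ^ 2 =
          ∑ w, ∑ w', ((dg G w : ℝ) * Wp G q θ s v w) *
            ((dg G w' : ℝ) * Wp G q θ s v w') * (bi G q θ x0 r c w * bi G q θ x0 r c w') := by
        intro c
        unfold Gs
        rw [sq, sum_mul_sum]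
        refine sum_congr rfl fun w _ => sum_congr rfl fun w' _ => ?_
        ring
      rw [sum_congr rfl (fun c _ => e6 c), sum_comm]
      refine sum_congr rfl fun w _ => ?_
      rw [sum_comm]
      refine sum_congr rfl fun w' _ => ?_
      rw [← mul_sum]
    rw [sum_congr rfl (fun v _ => e5 v), ← sum_add_distrib, mul_sum, Fintype.sum_prod_type]
    refine sum_congr rfl fun v _ => ?_
    rw [← sum_add_distrib, mul_sum, Fintype.sum_prod_type]
    refine sum_congr rfl fun w _ => ?_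
    rw [← sum_add_distrib, mul_sum]
    refine sum_congr rfl fun w' _ => ?_
    ring
  rw [e4]
  apply mul_le_mul_of_nonneg_left _ (by positivity)
  have hKs : ∀ a b, mean μ (hh (q := q) a b) = mean μ (hh (q := q) b a) := by
    intro a b
    congr 1
    funext x
    unfold hh
    simp only [eq_comm]
  have e7 : ∑ v, ∑ w, ∑ w', ((dg G w : ℝ) * Wp G q θ s v w) *
          ((dg G w' : ℝ) * Wp G q θ s v w') * mean μ (hh (q := q) w w') ≤
      (Δ : ℝ) ^ 3 / θ * QQ G q θ s := by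
    unfold QQ
    rw [mul_sum]
    refine sum_le_sum fun v _ => ?_
    refine (schur (fun w => (dg G w : ℝ) * Wp G q θ s v w) (fun w w' => mean μ (hh (q := q) w w'))
      ((Δ : ℝ) ^ 2 / θ) hK0 hKs hKr).trans ?_
    rw [mul_sum, mul_sum]
    refine sum_le_sum fun w _ => ?_
    have h8 : (1:ℝ) ≤ dg G v := dg_cast hA v
    have h9 : (dg G w : ℝ) ≤ Δ := dg_castD hA w
    have h10 : 0 < θ := hA.t0
    have h11 : ((dg G w : ℝ) * Wp G q θ s v w) ^ 2 ≤
        (Δ : ℝ) * ((dg G v : ℝ) * dg G w * (Wp G q θ s v w) ^ 2) := by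
      have h12 : 0 ≤ (dg G w : ℝ) * (Wp G q θ s v w) ^ 2 := mul_nonneg (hd0 w) (sq_nonneg _)
      have h13 : (dg G w : ℝ) * 1 ≤ Δ * (dg G v : ℝ) :=
        mul_le_mul h9 h8 (by norm_num) (by positivity)
      calc ((dg G w : ℝ) * Wp G q θ s v w) ^ 2 =
            ((dg G w : ℝ) * 1) * ((dg G w : ℝ) * (Wp G q θ s v w) ^ 2) := by ring
        _ ≤ (Δ * (dg G v : ℝ)) * ((dg G w : ℝ) * (Wp G q θ s v w) ^ 2) :=
            mul_le_mul_of_nonneg_right h13 h12
        _ = (Δ : ℝ) * ((dg G v : ℝ) * dg G w * (Wp G q θ s v w) ^ 2) := by ring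
    calc (Δ : ℝ) ^ 2 / θ * ((dg G w : ℝ) * Wp G q θ s v w) ^ 2 ≤
          (Δ : ℝ) ^ 2 / θ * ((Δ : ℝ) * ((dg G v : ℝ) * dg G w * (Wp G q θ s v w) ^ 2)) :=
          mul_le_mul_of_nonneg_left h11 (by positivity)
      _ = (Δ : ℝ) ^ 3 / θ * ((dg G v : ℝ) * dg G w * (Wp G q θ s v w) ^ 2) := by ring
  have e8 : ∑ v, ∑ c, (Gs G q θ x0 s r c v) ^ 2 ≤
      ∑ c, ∑ v, (dg G v : ℝ) * (Gs G q θ x0 s r c v) ^ 2 := by
    rw [sum_comm]
    refine sum_le_sum fun c _ => sum_le_sum fun v _ => ?_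
    have := dg_cast hA v
    nlinarith [sq_nonneg (Gs G q θ x0 s r c v)]
  linarith

/-! ### derivatives -/

theorem wp_der (h2 : S_W2) (hA : SA G q θ Δ) (t u : ℝ) (a b : V) :
    HasDerivAt (fun u => Wp G q θ (t + u) a b)
      (if a = b then 0 else -2 * Wp G q θ (t + u) a b +
        ∑ a', mrate G q θ (Sum.inr (a, a')) * Wp G q θ (t + u) a' b +
        ∑ b', mrate G q θ (Sum.inr (b, b')) * Wp G q θ (t + u) a b') u := by
  obtain ⟨-, -, h0, -, hd⟩ := h2 V G q θ Δ hA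
  by_cases h : a = b
  · subst h
    rw [if_pos rfl]
    have e : (fun u => Wp G q θ (t + u) a a) = fun _ => (0:ℝ) := by
      funext u
      exact h0 _ _
    rw [e]
    exact hasDerivAt_const _ _
  · rw [if_neg h]
    exact (hd (t + u) a b h).comp_const_add t u

theorem bi_der (hG : S_GE) (hA : SA G q θ Δ) (t : ℝ) (x0 : V → Fin q) (c : Fin q) (v : V) :
    HasDerivAt (fun t => bi G q θ x0 t c v)
      (-bi G q θ x0 t c v + ∑ w, mrate G q θ (Sum.inr (v, w)) * bi G q θ x0 t c w) t := by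
  have h1 := p_mk.deriv _ _ (mrate G q θ) (act (V := V) (q := q)) (et c v) x0 t
  have h2 : gf (mrate G q θ) (act (V := V) (q := q)) (et c v) = fun x => ∑ k : Option V,
      (match k with
        | none => (-1:ℝ)
        | some w => mrate G q θ (Sum.inr (v, w))) *
      (match k with
        | none => et c v
        | some w => et c w : (V → Fin q) → ℝ) x := by
    funext x
    rw [((hG V G q θ Δ hA x).1 c v), Fintype.sum_option]
    ring
  have h3 : sg (mrate G q θ) (act (V := V) (q := q)) t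
      (gf (mrate G q θ) (act (V := V) (q := q)) (et c v)) x0 =
      -bi G q θ x0 t c v + ∑ w, mrate G q θ (Sum.inr (v, w)) * bi G q θ x0 t c w := by
    rw [h2, p_mk.lin, Fintype.sum_option]
    unfold bi pt
    ring
  rw [h3] at h1
  exact h1

theorem bi_der' (hG : S_GE) (hA : SA G q θ Δ) (t u : ℝ) (x0 : V → Fin q) (c : Fin q) (v : V) :
    HasDerivAt (fun u => bi G q θ x0 (t - u) c v)
      (bi G q θ x0 (t - u) c v -
        ∑ w, mrate G q θ (Sum.inr (v, w)) * bi G q θ x0 (t - u) c w) u := by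
  have h := (bi_der hG hA (t - u) x0 c v).comp_const_sub t u
  have e : -(-bi G q θ x0 (t - u) c v +
      ∑ w, mrate G q θ (Sum.inr (v, w)) * bi G q θ x0 (t - u) c w) =
      bi G q θ x0 (t - u) c v -
        ∑ w, mrate G q θ (Sum.inr (v, w)) * bi G q θ x0 (t - u) c w := by ring
  rw [e] at h
  exact h

theorem gs_der (h2 : S_W2) (hG : S_GE) (hA : SA G q θ Δ) (t u : ℝ) (x0 : V → Fin q) (c : Fin q)
    (v : V) :
    HasDerivAt (fun u => Gs G q θ x0 (t + u) (t - u) c v)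
      (-(Gs G q θ x0 (t + u) (t - u) c v) +
        ∑ v', mrate G q θ (Sum.inr (v, v')) * Gs G q θ x0 (t + u) (t - u) c v' -
        2 * (dg G v : ℝ) * (∑ w, mrate G q θ (Sum.inr (v, w)) * Wp G q θ (t + u) v w) *
          bi G q θ x0 (t - u) c v) u := by
  have h := dG_id (fun v => (dg G v : ℝ)) (fun v w => mrate G q θ (Sum.inr (v, w)))
    (fun v w => Wp G q θ (t + u) v w) (fun v => bi G q θ x0 (t - u) c v) v
    (fun v w => m_symm hA v w) (fun v w => (h2 V G q θ Δ hA).2.1 _ _ _)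
    (fun v => (h2 V G q θ Δ hA).2.2.1 _ _)
  have e : -(Gs G q θ x0 (t + u) (t - u) c v) +
        ∑ v', mrate G q θ (Sum.inr (v, v')) * Gs G q θ x0 (t + u) (t - u) c v' -
        2 * (dg G v : ℝ) * (∑ w, mrate G q θ (Sum.inr (v, w)) * Wp G q θ (t + u) v w) *
          bi G q θ x0 (t - u) c v = _ := h.symm
  rw [e]
  unfold Gs
  refine HasDerivAt.fun_sum fun w _ => ?_
  have h3 := ((wp_der h2 hA t u v w).const_mul (dg G w : ℝ)).fun_mul (bi_der' hG hA t u x0 c w)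
  refine h3.congr_deriv ?_
  ring

/-! ### the energy -/

/-- the energy -/
noncomputable def En (G : SimpleGraph V) (q : ℕ) (θ : ℝ) (x0 : V → Fin q) (t u : ℝ) : ℝ :=
  ∑ c, ∑ v, (dg G v : ℝ) * (Gs G q θ x0 (t + u) (t - u) c v) ^ 2

/-- the integrand of the collision term -/
noncomputable def Rd (G : SimpleGraph V) (q : ℕ) (θ : ℝ) (x0 : V → Fin q) (t u : ℝ) : ℝ :=
  ∑ z, rh G q θ (t + u) z * ∑ c, (bi G q θ x0 (t - u) c z) ^ 2

/-- coefficient of the source term -/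
noncomputable def rr (G : SimpleGraph V) (q : ℕ) (θ : ℝ) (s : ℝ) (v : V) : ℝ :=
  2 * (dg G v : ℝ) * ∑ w, mrate G q θ (Sum.inr (v, w)) * Wp G q θ s v w

theorem en_der (h2 : S_W2) (hG : S_GE) (hA : SA G q θ Δ) (t u : ℝ) (x0 : V → Fin q) :
    HasDerivAt (fun u => En G q θ x0 t u)
      (∑ c, ∑ v, (dg G v : ℝ) * (2 * Gs G q θ x0 (t + u) (t - u) c v *
        (-(Gs G q θ x0 (t + u) (t - u) c v) +
          ∑ v', mrate G q θ (Sum.inr (v, v')) * Gs G q θ x0 (t + u) (t - u) c v' -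
          rr G q θ (t + u) v * bi G q θ x0 (t - u) c v))) u := by
  unfold En
  refine HasDerivAt.fun_sum fun c _ => HasDerivAt.fun_sum fun v _ => ?_
  have h := gs_der h2 hG hA t u x0 c v
  have h3 := (h.fun_mul h).const_mul (dg G v : ℝ)
  have e : (fun u => (dg G v : ℝ) * (Gs G q θ x0 (t + u) (t - u) c v) ^ 2) =
      fun u => (dg G v : ℝ) * (Gs G q θ x0 (t + u) (t - u) c v *
        Gs G q θ x0 (t + u) (t - u) c v) := by
    funext u
    ring
  rw [e]
  refine h3.congr_deriv ?_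
  unfold rr
  ring

theorem rr_bd (h2 : S_W2) (hB : S_WB) (hA : SA G q θ Δ) {s : ℝ} (hs : 0 ≤ s) (v : V) :
    0 ≤ rr G q θ s v ∧ rr G q θ s v ≤ 8 * (Δ : ℝ) ^ 2 := by
  have hW0 : ∀ a b, 0 ≤ Wp G q θ s a b := fun a b => wp_nonneg h2 hA hs a b
  have hm := m_nonneg hA
  constructor
  · unfold rr
    refine mul_nonneg (mul_nonneg (by norm_num) (Nat.cast_nonneg _)) ?_
    exact sum_nonneg fun w _ => mul_nonneg (hm v w) (hW0 v w)
  · have h1 := (hB V G q θ Δ hA s 0 hs le_rfl).1 v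
    have h3 : rr G q θ s v ≤ 2 * ∑ b, (dg G b : ℝ) * Wp G q θ s v b := by
      unfold rr
      rw [mul_assoc, mul_sum]
      apply mul_le_mul_of_nonneg_left _ (by norm_num)
      refine sum_le_sum fun w _ => ?_
      have h4 := m_le hA v w
      have h5 := dg_cast hA w
      rw [← mul_assoc]
      exact mul_le_mul_of_nonneg_right (by linarith) (hW0 v w)
    linarith

theorem rr_rh (s : ℝ) (v : V) : (dg G v : ℝ) * rr G q θ s v = rh G q θ s v := by
  unfold rr rh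
  ring

theorem en_der_le (h2 : S_W2) (hB : S_WB) (hA : SA G q θ Δ) {t u : ℝ} (ht : 0 ≤ t)
    (hu : 0 ≤ u) (x0 : V → Fin q) :
    ∑ c, ∑ v, (dg G v : ℝ) * (2 * Gs G q θ x0 (t + u) (t - u) c v *
        (-(Gs G q θ x0 (t + u) (t - u) c v) +
          ∑ v', mrate G q θ (Sum.inr (v, v')) * Gs G q θ x0 (t + u) (t - u) c v' -
          rr G q θ (t + u) v * bi G q θ x0 (t - u) c v)) ≤
      -θ * En G q θ x0 t u + 8 * (Δ : ℝ) ^ 2 / θ * Rd G q θ x0 t u := by
  have h := en_ineq (fun v => (dg G v : ℝ)) (fun v w => mrate G q θ (Sum.inr (v, w)))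
    (rr G q θ (t + u)) (fun c v => Gs G q θ x0 (t + u) (t - u) c v)
    (fun c v => bi G q θ x0 (t - u) c v) θ (8 * (Δ : ℝ) ^ 2) hA.t0 (fun v => Nat.cast_nonneg _)
    (m_nonneg hA) (m_symm hA) (fun v => (m_row hA v).le)
    (fun v => (rr_bd h2 hB hA (by linarith) v).1) (fun v => (rr_bd h2 hB hA (by linarith) v).2)
  refine h.trans (le_of_eq ?_)
  unfold En Rd
  congr 2
  refine sum_congr rfl fun v _ => ?_
  rw [rr_rh]

theorem en_zero_le (h2 : S_W2) (hB : S_WB) (hA : SA G q θ Δ) {t : ℝ} (ht : 0 ≤ t)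
    (x0 : V → Fin q) : En G q θ x0 t 0 ≤ 16 * (Δ : ℝ) ^ 5 * BB G q θ x0 t := by
  have h := en_zero (fun v => (dg G v : ℝ)) (fun v w => Wp G q θ t v w)
    (fun c v => bi G q θ x0 t c v) Δ (4 * (Δ : ℝ) ^ 2) (fun v => Nat.cast_nonneg _)
    (dg_castD hA) (by positivity) (fun v w => wp_nonneg h2 hA ht v w)
    (fun v w => (h2 V G q θ Δ hA).2.1 _ _ _) (hB V G q θ Δ hA t 0 ht le_rfl).1
  have e : En G q θ x0 t 0 = ∑ c, ∑ v, (dg G v : ℝ) *
      (∑ w, (dg G w : ℝ) * Wp G q θ t v w * bi G q θ x0 t c w) ^ 2 := by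
    unfold En Gs
    simp only [add_zero, sub_zero]
  rw [e]
  refine h.trans (le_of_eq ?_)
  unfold BB
  ring

theorem en_nonneg (x0 : V → Fin q) (t u : ℝ) : 0 ≤ En G q θ x0 t u :=
  sum_nonneg fun _ _ => sum_nonneg fun _ _ => mul_nonneg (Nat.cast_nonneg _) (sq_nonneg _)

theorem rd_cont (h2 : S_W2) (hG : S_GE) (hA : SA G q θ Δ) (t : ℝ) (x0 : V → Fin q) :
    Continuous (fun u => Rd G q θ x0 t u) := by
  have hW : ∀ a b, Continuous (fun u => Wp G q θ (t + u) a b) := fun a b =>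
    continuous_iff_continuousAt.2 fun u => (wp_der h2 hA t u a b).continuousAt
  have hb : ∀ c v, Continuous (fun u => bi G q θ x0 (t - u) c v) := fun c v =>
    continuous_iff_continuousAt.2 fun u => (bi_der' hG hA t u x0 c v).continuousAt
  unfold Rd rh
  refine continuous_finsetSum _ fun z _ => ?_
  refine Continuous.mul (continuous_const.mul (continuous_finsetSum _ fun b _ => ?_))
    (continuous_finsetSum _ fun c _ => ?_)
  · exact continuous_const.mul (hW z b)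
  · exact (hb c z).pow 2

theorem rd_nonneg (h2 : S_W2) (hA : SA G q θ Δ) {t u : ℝ} (h : 0 ≤ t + u) (x0 : V → Fin q) :
    0 ≤ Rd G q θ x0 t u := by
  unfold Rd rh
  refine sum_nonneg fun z _ => mul_nonneg (mul_nonneg (by positivity) ?_) ?_
  · exact sum_nonneg fun b _ => mul_nonneg (m_nonneg hA z b) (wp_nonneg h2 hA h z b)
  · exact sum_nonneg fun c _ => sq_nonneg _

/-! ### the square field of a shift -/

theorem gam_add {S ι : Type} [Fintype ι] (r : ι → ℝ) (m : ι → S → S) (F : S → ℝ) (k : ℝ) :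
    gam r m (fun x => F x + k) = gam r m F := by
  funext x
  unfold gam
  refine sum_congr rfl fun e _ => ?_
  ring

theorem gam_pt (hz : S_LZ) (hA : SA G q θ Δ) {t u : ℝ} (ht : 0 ≤ t) (hu : 0 ≤ u) :
    gam (mrate G q θ) (act (V := V) (q := q))
      (sg (mrate G q θ) (act (V := V) (q := q)) u (ZZ G q θ t)) =
    gam (mrate G q θ) (act (V := V) (q := q)) (ZZ G q θ (t + u)) := by
  have h : sg (mrate G q θ) (act (V := V) (q := q)) u (ZZ G q θ t) =
      fun x => ZZ G q θ (t + u) x + (1 - 1 / (q : ℝ)) * ∫ r in t..(t + u),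
        ∑ a, ∑ b, (dg G a : ℝ) * dg G b *
          (mrate G q θ (Sum.inr (a, b)) + mrate G q θ (Sum.inr (b, a))) * Wp G q θ r a b := by
    funext x
    exact hz V G q θ Δ hA t u ht hu x
  rw [h, gam_add]

theorem qq_decay (hB : S_WB) (hA : SA G q θ Δ) {t u : ℝ} (ht : 0 ≤ t) (hu : 0 ≤ u) :
    QQ G q θ (t + u) ≤ Real.exp (-4 * θ * u) * QQ G q θ t :=
  (hB V G q θ Δ hA t u ht hu).2.2.1

theorem qq_le (hA : SA G q θ Δ) (t : ℝ) : QQ G q θ t ≤ (Δ : ℝ) ^ 2 * WW G q θ t := by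
  unfold QQ WW
  rw [mul_sum]
  refine sum_le_sum fun a _ => ?_
  rw [mul_sum]
  refine sum_le_sum fun b _ => mul_le_mul_of_nonneg_right ?_ (sq_nonneg _)
  rw [sq]
  exact mul_le_mul (dg_castD hA a) (dg_castD hA b) (Nat.cast_nonneg _) (Nat.cast_nonneg _)

theorem qq_nonneg (t : ℝ) : 0 ≤ QQ G q θ t :=
  sum_nonneg fun a _ => sum_nonneg fun b _ => mul_nonneg (by positivity) (sq_nonneg _)

/-! ### the variance -/

theorem vr_le (h2 : S_W2) (hB : S_WB) (hG : S_GE) (hL2 : S_L2) (hz : S_LZ) (hA : SA G q θ Δ)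
    (x0 : V → Fin q) {t : ℝ} (ht : 0 ≤ t) :
    vr (law G q θ x0 t) (ZZ G q θ t) ≤ 16 * (Δ : ℝ) ^ 2 * ((Δ : ℝ) ^ 5 / (4 * θ ^ 2) * WW G q θ t +
      (16 * (Δ : ℝ) ^ 5 / θ * BB G q θ x0 t + 8 * (Δ : ℝ) ^ 2 / θ ^ 2 * RR G q θ x0 t)) := by
  have hq1 : 1 ≤ q := le_trans (by norm_num) hA.q2
  have hθ : 0 < θ := hA.t0
  have hlaw := p_law V G q θ hq1 hA.t0 hA.t1 hA.d1
  -- the derivative of the interpolation
  obtain ⟨K, hKd⟩ : ∃ K : ℝ → ℝ, K = fun u => sg (mrate G q θ) (act (V := V) (q := q)) (t - u)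
      (fun y => (sg (mrate G q θ) (act (V := V) (q := q)) (t - (t - u)) (ZZ G q θ t) y) ^ 2) x0 :=
    ⟨_, rfl⟩
  have hK : ∀ u, HasDerivAt K (-(sg (mrate G q θ) (act (V := V) (q := q)) (t - u)
      (gam (mrate G q θ) (act (V := V) (q := q))
        (sg (mrate G q θ) (act (V := V) (q := q)) (t - (t - u)) (ZZ G q θ t))) x0)) u := by
    intro u
    rw [hKd]
    exact (p_var _ _ (mrate G q θ) (act (V := V) (q := q)) (ZZ G q θ t) x0 t
      (t - u)).comp_const_sub t u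
  have hK0 : K 0 = mean (law G q θ x0 t) (fun x => ZZ G q θ t x ^ 2) := by
    rw [hlaw.2.1, hKd]
    simp only [sub_zero, sub_self]
    rw [p_mk.zero]
    rfl
  have hKt : K t = (mean (law G q θ x0 t) (ZZ G q θ t)) ^ 2 := by
    rw [hlaw.2.1, hKd]
    simp only [sub_self, sub_zero]
    rw [p_mk.zero]
    rfl
  -- the comparison function
  obtain ⟨P, hPd⟩ : ∃ P : ℝ → ℝ, P = fun u =>
      -((Δ : ℝ) ^ 3 / (4 * θ ^ 2) * QQ G q θ t) * Real.exp (-4 * θ * u) -
        1 / θ * En G q θ x0 t u + 8 * (Δ : ℝ) ^ 2 / θ ^ 2 * ∫ r in (0:ℝ)..u, Rd G q θ x0 t r :=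
    ⟨_, rfl⟩
  obtain ⟨e', he'⟩ : ∃ e' : ℝ → ℝ, e' = fun u => ∑ c, ∑ v, (dg G v : ℝ) *
      (2 * Gs G q θ x0 (t + u) (t - u) c v *
        (-(Gs G q θ x0 (t + u) (t - u) c v) +
          ∑ v', mrate G q θ (Sum.inr (v, v')) * Gs G q θ x0 (t + u) (t - u) c v' -
          rr G q θ (t + u) v * bi G q θ x0 (t - u) c v)) := ⟨_, rfl⟩
  have hE : ∀ u, HasDerivAt (fun u => En G q θ x0 t u) (e' u) u := by
    intro u
    rw [he']
    exact en_der h2 hG hA t u x0
  have hP : ∀ u, HasDerivAt P ((Δ : ℝ) ^ 3 / θ * QQ G q θ t * Real.exp (-4 * θ * u) -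
      1 / θ * e' u + 8 * (Δ : ℝ) ^ 2 / θ ^ 2 * Rd G q θ x0 t u) u := by
    intro u
    rw [hPd]
    have d1 : HasDerivAt (fun u : ℝ => Real.exp (-4 * θ * u)) (Real.exp (-4 * θ * u) *
        (-4 * θ)) u := by
      have := ((hasDerivAt_id u).const_mul (-4 * θ)).exp
      simpa using this
    have d2 := d1.const_mul (-((Δ : ℝ) ^ 3 / (4 * θ ^ 2) * QQ G q θ t))
    have d3 := (hE u).const_mul (1 / θ)
    have d4 : HasDerivAt (fun u => ∫ r in (0:ℝ)..u, Rd G q θ x0 t r) (Rd G q θ x0 t u) u :=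
      intervalIntegral.integral_hasDerivAt_right
        ((rd_cont h2 hG hA t x0).intervalIntegrable _ _)
        ((rd_cont h2 hG hA t x0).stronglyMeasurableAtFilter _ _)
        (rd_cont h2 hG hA t x0).continuousAt
    have d5 := (d2.fun_sub d3).fun_add (d4.const_mul (8 * (Δ : ℝ) ^ 2 / θ ^ 2))
    refine d5.congr_deriv ?_
    field_simp
  have hcomp := int_comp ht hK hP (A := 16 * (Δ : ℝ) ^ 2) (by
    intro u hu0 hut
    have h1 := pt_gam_le h2 hL2 hA (t + u) (t - u) (by linarith) (by linarith) x0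
    have e1 : t - (t - u) = u := by ring
    rw [e1, gam_pt hz hA ht hu0]
    refine h1.trans (mul_le_mul_of_nonneg_left ?_ (by positivity))
    have h3 := en_der_le h2 hB hA ht hu0 x0
    have h3' : e' u ≤ -θ * En G q θ x0 t u + 8 * (Δ : ℝ) ^ 2 / θ * Rd G q θ x0 t u := by
      rw [he']
      exact h3
    have h4 : (Δ : ℝ) ^ 3 / θ * QQ G q θ (t + u) ≤
        (Δ : ℝ) ^ 3 / θ * (Real.exp (-4 * θ * u) * QQ G q θ t) :=
      mul_le_mul_of_nonneg_left (qq_decay hB hA ht hu0) (by positivity)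
    have h5 : En G q θ x0 t u ≤ -(1 / θ * e' u) + 8 * (Δ : ℝ) ^ 2 / θ ^ 2 * Rd G q θ x0 t u := by
      have h6 : 1 / θ * e' u ≤ 1 / θ * (-θ * En G q θ x0 t u +
          8 * (Δ : ℝ) ^ 2 / θ * Rd G q θ x0 t u) :=
        mul_le_mul_of_nonneg_left h3' (by positivity)
      have h7 : 1 / θ * (-θ * En G q θ x0 t u + 8 * (Δ : ℝ) ^ 2 / θ * Rd G q θ x0 t u) =
          -En G q θ x0 t u + 8 * (Δ : ℝ) ^ 2 / θ ^ 2 * Rd G q θ x0 t u := by
        field_simp
      linarith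
    have h8 : ∑ c, ∑ v, (dg G v : ℝ) * (Gs G q θ x0 (t + u) (t - u) c v) ^ 2 =
        En G q θ x0 t u := rfl
    rw [h8]
    linarith)
  have hvr : vr (law G q θ x0 t) (ZZ G q θ t) = K 0 - K t := by
    rw [hK0, hKt]
    rfl
  rw [hvr]
  refine hcomp.trans (mul_le_mul_of_nonneg_left ?_ (by positivity))
  have hP0 : P 0 = -((Δ : ℝ) ^ 3 / (4 * θ ^ 2) * QQ G q θ t) - 1 / θ * En G q θ x0 t 0 := by
    rw [hPd]
    simp
  have hPt : P t = -((Δ : ℝ) ^ 3 / (4 * θ ^ 2) * QQ G q θ t) * Real.exp (-4 * θ * t) -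
        1 / θ * En G q θ x0 t t + 8 * (Δ : ℝ) ^ 2 / θ ^ 2 * RR G q θ x0 t := by
    rw [hPd]
    rfl
  rw [hP0, hPt]
  have g1 : 0 ≤ (Δ : ℝ) ^ 3 / (4 * θ ^ 2) * QQ G q θ t * Real.exp (-4 * θ * t) :=
    mul_nonneg (mul_nonneg (by positivity) (qq_nonneg t)) (Real.exp_pos _).le
  have g2 : 0 ≤ 1 / θ * En G q θ x0 t t := mul_nonneg (by positivity) (en_nonneg x0 t t)
  have g3 : (Δ : ℝ) ^ 3 / (4 * θ ^ 2) * QQ G q θ t ≤ (Δ : ℝ) ^ 5 / (4 * θ ^ 2) * WW G q θ t := by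
    calc (Δ : ℝ) ^ 3 / (4 * θ ^ 2) * QQ G q θ t ≤
          (Δ : ℝ) ^ 3 / (4 * θ ^ 2) * ((Δ : ℝ) ^ 2 * WW G q θ t) :=
          mul_le_mul_of_nonneg_left (qq_le hA t) (by positivity)
      _ = (Δ : ℝ) ^ 5 / (4 * θ ^ 2) * WW G q θ t := by ring
  have g4 : 1 / θ * En G q θ x0 t 0 ≤ 16 * (Δ : ℝ) ^ 5 / θ * BB G q θ x0 t := by
    calc 1 / θ * En G q θ x0 t 0 ≤ 1 / θ * (16 * (Δ : ℝ) ^ 5 * BB G q θ x0 t) :=
          mul_le_mul_of_nonneg_left (en_zero_le h2 hB hA ht x0) (by positivity)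
      _ = 16 * (Δ : ℝ) ^ 5 / θ * BB G q θ x0 t := by ring
  linarith

end conc

theorem l4 (h2 : S_W2) (hB : S_WB) (hG : S_GE) (hL2 : S_L2) (hz : S_LZ) : S_L4 := by
  intro q θ Δ hq hθ0 hθ1
  refine ⟨16 * (Δ : ℝ) ^ 2 * ((Δ : ℝ) ^ 5 / (4 * θ ^ 2) + 16 * (Δ : ℝ) ^ 5 / θ +
    8 * (Δ : ℝ) ^ 2 / θ ^ 2), by positivity, ?_⟩
  intro V _ _ G x0 hA t ht
  refine (vr_le h2 hB hG hL2 hz hA x0 ht).trans ?_
  have hW : 0 ≤ WW G q θ t := sum_nonneg fun a _ => sum_nonneg fun b _ => sq_nonneg _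
  have hBB : 0 ≤ BB G q θ x0 t := sum_nonneg fun a _ => sum_nonneg fun b _ => sq_nonneg _
  have hR : 0 ≤ RR G q θ x0 t := by
    refine intervalIntegral.integral_nonneg ht fun u hu => ?_
    exact rd_nonneg h2 hA (by linarith [hu.1]) x0
  have a1 : 0 ≤ (Δ : ℝ) ^ 5 / (4 * θ ^ 2) := by positivity
  have a2 : 0 ≤ 16 * (Δ : ℝ) ^ 5 / θ := by positivity
  have a3 : 0 ≤ 8 * (Δ : ℝ) ^ 2 / θ ^ 2 := by positivity
  have a4 : (Δ : ℝ) ^ 5 / (4 * θ ^ 2) * WW G q θ t +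
      (16 * (Δ : ℝ) ^ 5 / θ * BB G q θ x0 t + 8 * (Δ : ℝ) ^ 2 / θ ^ 2 * RR G q θ x0 t) ≤
      ((Δ : ℝ) ^ 5 / (4 * θ ^ 2) + 16 * (Δ : ℝ) ^ 5 / θ + 8 * (Δ : ℝ) ^ 2 / θ ^ 2) *
        (WW G q θ t + BB G q θ x0 t + RR G q θ x0 t) := by
    nlinarith [mul_nonneg a1 hBB, mul_nonneg a1 hR, mul_nonneg a2 hW, mul_nonneg a2 hR,
      mul_nonneg a3 hW, mul_nonneg a3 hBB]
  rw [mul_assoc (16 * (Δ : ℝ) ^ 2)]
  exact mul_le_mul_of_nonneg_left a4 (by positivity)

end Pool.Agent.Y220.U
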